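import Pool.Agent.U30.BP.TimeSpace

/-!
# A single-exponential algorithm for the difficulty would give EXPSPACE = EXPTIME
-/

namespace Pool.Agent.Results.MP_3d6b9a_lc.NoUnlessExpspaceEqExp

open Pool.Agent.U30.BP Pool.Agent.H820R2.SS

/-- If the difficulty of critical update families can be computed in time `exp (O(‖U‖))`, or just
`exp (‖U‖ ^ O(1))`, then `EXPSPACE = EXPTIME`. -/
theorem result (h : ∃ c : ℕ, DiffInTime fun s => Real.exp (c * (s + 1) ^ c)) :
    ∀ L : Set (List Bool), InEXPSPACE L ↔ InEXPTIME L := by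
  obtain ⟨c, h⟩ := h
  exact fun L => ⟨exptime_of_fast h, expspace_of_exptime⟩

end Pool.Agent.Results.MP_3d6b9a_lc.NoUnlessExpspaceEqExp
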